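import Mathlib
import Pool.Agent.U214.UN.Full2

/-!
# All moments of `2 ^ rank` over the elliptic curves with torsion containing `Z/2 x Z/2`

Every elliptic curve over `ℚ` whose torsion group contains `Z/2 x Z/2` is isomorphic to
`E d a b : y² = x (x - d a) (x - d b)` with `a`, `b` coprime and `d` squarefree. For every `d ≠ 0` and
every `r` the `r`-th moment of `2 ^ rank` over the coprime pairs `(a, b)` with `|a|, |b| ≤ H` is at
most `C (1 + log H) ^ kap r` with `kap r = (2 ^ r - 1) (1 - 2 / 2 ^ r)`; hence the proportion of the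
curves of rank at least `R` is at most `C (1 + log H) ^ kap r / 2 ^ (r R)`, for every `r` and `R`.
-/

set_option autoImplicit false

namespace Pool.Agent.Results.MP_9e6228_nt.FullTwoTorsion

open Finset

/-- the curve `y² = x (x - d a) (x - d b)` over `ℚ` -/
def E (d a b : ℤ) : WeierstrassCurve ℚ :=
  ⟨0, -(((d * a : ℤ) : ℚ) + (d * b : ℤ)), 0, ((d * a : ℤ) : ℚ) * (d * b : ℤ), 0⟩

/-- the rank of the group of the rational points of `E d a b` -/
noncomputable def rank (d a b : ℤ) : ℕ := Module.finrank ℤ (E d a b).toAffine.Point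

/-- the pairs `(a, b)` of coprime integers with `|a|, |b| ≤ H` and `E 1 a b` nonsingular -/
noncomputable def Pairs (H : ℕ) : Finset (ℤ × ℤ) :=
  ((Icc (-(H : ℤ)) H) ×ˢ (Icc (-(H : ℤ)) H)).filter (fun w : ℤ × ℤ =>
    IsCoprime w.1 w.2 ∧ w.1 * w.2 * (w.1 - w.2) ≠ 0)

/-- the exponent; `kap 1 = 0` -/
noncomputable def kap (r : ℕ) : ℝ := ((2 : ℝ) ^ r - 1) * (1 - 2 / 2 ^ r)

/-- All moments of `2 ^ rank`, and the number of the curves of large rank. -/
theorem result (d : ℤ) (hd : d ≠ 0) (r : ℕ) : ∃ C : ℝ, ∀ H : ℕ, 1 ≤ H →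
    ∑ w ∈ Pairs H, ((2 : ℝ) ^ rank d w.1 w.2) ^ r ≤ C * ((H : ℝ) ^ 2 * (1 + Real.log H) ^ kap r) ∧
    ∀ R : ℕ, (((Pairs H).filter (fun w => R ≤ rank d w.1 w.2)).card : ℝ) ≤
      C / 2 ^ (r * R) * ((H : ℝ) ^ 2 * (1 + Real.log H) ^ kap r) := by
  classical
  obtain ⟨C, hC⟩ := Pool.Agent.U214.UN.full2 Pool.Agent.U214.GT.tr_QL hd r
  have hC' : ∀ H : ℕ, 1 ≤ H → ∑ w ∈ Pairs H, ((2 : ℝ) ^ rank d w.1 w.2) ^ r ≤
      C * ((H : ℝ) ^ 2 * (1 + Real.log H) ^ kap r) := fun H hH => hC H hH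
  refine ⟨C, fun H hH => ⟨hC' H hH, fun R => ?_⟩⟩
  have h1 := hC' H hH
  rw [div_mul_eq_mul_div, le_div_iff₀ (by positivity)]
  refine le_trans ?_ h1
  rw [← nsmul_eq_mul, ← sum_const]
  refine (sum_le_sum fun t ht => ?_).trans (sum_le_sum_of_subset_of_nonneg (filter_subset _ _)
    fun t _ _ => by positivity)
  have h2 := (mem_filter.1 ht).2
  rw [← pow_mul, mul_comm r R]
  exact pow_le_pow_right₀ (by norm_num) (Nat.mul_le_mul_right r h2)

end Pool.Agent.Results.MP_9e6228_nt.FullTwoTorsion
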