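import Mathlib
import Pool.Agent.U214.T4.RF

/-!
# All moments of `2 ^ rank` over the rational fibres of elliptic surfaces with full 2-torsion

Let `F_k (u, v) = a_k ∏ (α_i u + β_i v) ^ μ_i`, the product over the `i` with `c i = k`, `k = 0, 1, 2`, be
binary forms of the same even degree which are products of linear forms over `ℤ` with arbitrary
multiplicities, the linear forms pairwise non-proportional, such that `F_0 - F_1 = F_2`. So
`y² = x (x - F_0) (x - F_1)` is a semistable elliptic surface over the projective line over `ℚ`, all the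
torsion points of order two are rational and its singular fibres, of type `I_{2 μ_i}`, lie over rational
points. We assume that the singular fibres with `μ_i` even are split.

For every `r ≥ 1` the mean of the `r`-th power of `2 ^ rank * #Ш[2]` of the fibres over the rational points
`t` of height at most `H` is at most `C (1 + log H) ^ e` with
`e = (2 ^ r - 1) ((2 ^ r + 1) m - N) / 2 ^ r`, where `N` is the number of the singular fibres and `m` the
greatest number of these for which the same point of order two meets the identity component (the greatest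
number of different linear forms of one of `F_0`, `F_1`, `F_2`). So the proportion of the fibres of rank at
least `R` is at most `C (1 + log H) ^ e / 2 ^ (r R)`, for every `r`. For `r = 1` and `N = 3 m` we have
`e = 0`.

Proof. See `Pool.Agent.U214.T6` (the 2-Selmer count of the library project RT and `U409.SH`, the expansion
of its powers and the analysis of the unlinked sets of `U214.RM`, `U214.GT`), the passage from the coprime
pairs to the rational fibres is that of `MP_157626_nt.RationalFibres` (helper106).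
-/

set_option autoImplicit false

namespace Pool.Agent.Results.MP_9e6228_nt.RationalFibresMoments

open Finset
open Pool.Agent.TH841.SH.D (ShaTor rk)

/-- the curve `y² = x (x - A) (x - B)` over `ℚ` -/
def E (A B : ℚ) : WeierstrassCurve ℚ := ⟨0, -(A + B), 0, A * B, 0⟩

/-- the binary form `F k (u, v)`, `a k` times the product of the `(α i * u + β i * v) ^ μ i` over the `i`
of the class `k` -/
def F {N : ℕ} (c : Fin N → Fin 3) (a : Fin 3 → ℤ) (μ : Fin N → ℕ) (α β : Fin N → ℤ) (k : Fin 3)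
    (u v : ℚ) : ℚ :=
  a k * ∏ i ∈ univ.filter (fun i => c i = k), ((α i : ℚ) * u + (β i : ℚ) * v) ^ μ i

/-- the value that decides whether the singular fibre at the zero `(-β i, α i)` of the form `i` is split:
`-F_1`, `-F_0` or `F_0` at this point, if `i` belongs to `F_0`, `F_1` or `F_2` -/
def tang {N : ℕ} (c : Fin N → Fin 3) (a : Fin 3 → ℤ) (μ : Fin N → ℕ) (α β : Fin N → ℤ)
    (i : Fin N) : ℚ :=
  if c i = 0 then -F c a μ α β 1 (-β i) (α i)
  else if c i = 1 then -F c a μ α β 0 (-β i) (α i)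
  else F c a μ α β 0 (-β i) (α i)

/-- the rational numbers of height at most `H`, that is, the fractions `m / q` of integers with
`|m| ≤ H` and `1 ≤ q ≤ H` -/
noncomputable def Rats (H : ℕ) : Finset ℚ :=
  ((Icc (-(H : ℤ)) H) ×ˢ (Icc (1 : ℤ) H)).image (fun c : ℤ × ℤ => (c.1 : ℚ) / c.2)

/-- the greatest number of different linear forms of one of `F_0`, `F_1`, `F_2` -/
def mx {N : ℕ} (c : Fin N → Fin 3) : ℕ :=
  univ.sup (fun k : Fin 3 => (univ.filter (fun i => c i = k)).card)

/-- the exponent of the logarithm -/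
noncomputable def e (N m r : ℕ) : ℝ := ((2 : ℝ) ^ r - 1) * (((2 : ℝ) ^ r + 1) * m - N) / 2 ^ r

/-- the number `2 ^ rank * #Ш[2]` -/
noncomputable def M (W : WeierstrassCurve ℚ) : ℝ := 2 ^ rk W * (Nat.card (ShaTor W 2) : ℝ)

lemma sum3 {N : ℕ} (c : Fin N → Fin 3) : (univ.filter (fun i => c i = 0)).card +
    (univ.filter (fun i => c i = 1)).card + (univ.filter (fun i => c i = 2)).card = N := by
  have h := card_eq_sum_card_fiberwise (s := (univ : Finset (Fin N))) (t := (univ : Finset (Fin 3)))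
    (f := c) (fun _ _ => mem_univ _)
  rw [Fin.sum_univ_three, card_univ, Fintype.card_fin] at h
  exact h.symm

lemma ex {N : ℕ} (c : Fin N → Fin 3) {r : ℕ} (hr : 1 ≤ r) :
    Pool.Agent.U214.T6.ExJ r (Pool.Agent.U214.T4.cl c) (e N (mx c) r) := by
  have h2 : (2 : ℝ) ≤ 2 ^ r := by
    calc (2 : ℝ) = 2 ^ 1 := (pow_one 2).symm
      _ ≤ 2 ^ r := pow_le_pow_right₀ (by norm_num) hr
  obtain ⟨q, hq⟩ : ∃ q : ℝ, q = 2 ^ r := ⟨_, rfl⟩
  rw [← hq] at h2
  have hq0 : 0 < q := by linarith
  obtain ⟨n, hn⟩ : ∃ n : Fin 3 → ℕ, n = fun k => (univ.filter (fun i => c i = k)).card := ⟨_, rfl⟩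
  have hc : ∀ k : Fin 3, (univ.filter (fun i => Pool.Agent.U214.T4.cl c i = k.castSucc)).card =
      n k := by
    intro k
    rw [hn]
    simp only
    congr 1
    unfold Pool.Agent.U214.T4.cl
    ext i
    simp
  have c0 := hc 0
  have c1 := hc 1
  have c2 := hc 2
  have hle : ∀ k, n k ≤ mx c := by
    intro k
    unfold mx
    rw [hn]
    exact le_sup (f := fun k : Fin 3 => (univ.filter (fun i => c i = k)).card) (mem_univ k)
  have hs : n 0 + n 1 + n 2 = N := by
    rw [hn]
    exact sum3 c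
  have hsr : (n 0 : ℝ) + n 1 + n 2 = N := by exact_mod_cast hs
  obtain ⟨m, hm⟩ : ∃ m, m = mx c := ⟨_, rfl⟩
  rw [← hm] at hle
  have l0 : (n 0 : ℝ) ≤ m := by exact_mod_cast hle 0
  have l1 : (n 1 : ℝ) ≤ m := by exact_mod_cast hle 1
  have l2 : (n 2 : ℝ) ≤ m := by exact_mod_cast hle 2
  have key : ∀ x y z : ℝ, x + y + z = N → x ≤ m →
      (q - 1) * (x - (y + z) / q) ≤ (q - 1) * ((q + 1) * m - N) / q := by
    intro x y z h1 h3
    rw [mul_div_assoc]
    apply mul_le_mul_of_nonneg_left _ (by linarith)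
    rw [le_div_iff₀ hq0]
    have e1 : (x - (y + z) / q) * q = x * q - (y + z) := by field_simp
    rw [e1]
    nlinarith
  unfold e
  rw [← hm]
  refine ⟨?_, ?_, ?_, ?_⟩
  · rw [← hq]
    apply div_nonneg _ hq0.le
    apply mul_nonneg (by linarith)
    nlinarith
  · change (2 ^ r - 1) * (((univ.filter (fun i => Pool.Agent.U214.T4.cl c i =
      (0 : Fin 3).castSucc)).card : ℝ) - (((univ.filter (fun i => Pool.Agent.U214.T4.cl c i =
      (1 : Fin 3).castSucc)).card : ℝ) + (univ.filter (fun i => Pool.Agent.U214.T4.cl c i =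
      (2 : Fin 3).castSucc)).card) / 2 ^ r) ≤ _
    rw [c0, c1, c2, ← hq]
    exact key _ _ _ (by linarith) l0
  · change (2 ^ r - 1) * (((univ.filter (fun i => Pool.Agent.U214.T4.cl c i =
      (1 : Fin 3).castSucc)).card : ℝ) - (((univ.filter (fun i => Pool.Agent.U214.T4.cl c i =
      (0 : Fin 3).castSucc)).card : ℝ) + (univ.filter (fun i => Pool.Agent.U214.T4.cl c i =
      (2 : Fin 3).castSucc)).card) / 2 ^ r) ≤ _
    rw [c0, c1, c2, ← hq]
    exact key _ _ _ (by linarith) l1
  · change (2 ^ r - 1) * (((univ.filter (fun i => Pool.Agent.U214.T4.cl c i =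
      (2 : Fin 3).castSucc)).card : ℝ) - (((univ.filter (fun i => Pool.Agent.U214.T4.cl c i =
      (0 : Fin 3).castSucc)).card : ℝ) + (univ.filter (fun i => Pool.Agent.U214.T4.cl c i =
      (1 : Fin 3).castSucc)).card) / 2 ^ r) ≤ _
    rw [c0, c1, c2, ← hq]
    exact key _ _ _ (by linarith) l2

/-- the constants of the local conditions -/
lemma kap_eq {N : ℕ} (c : Fin N → Fin 3) (a : Fin 3 → ℤ) (μ : Fin N → ℕ) (α β : Fin N → ℤ)
    (i : Fin N) : ((Pool.Agent.W307.RT.kapM (Pool.Agent.U214.T4.cl c) a μ α β i : ℤ) : ℚ) =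
      tang c a μ α β i := by
  have hF : ∀ k : Fin 3, ((a k * ∏ l ∈ Pool.Agent.W307.RT.fc (Pool.Agent.U214.T4.cl c) k,
      Pool.Agent.W262.RK.Res α β i l ^ μ l : ℤ) : ℚ) = F c a μ α β k (-β i) (α i) := by
    intro k
    rw [Pool.Agent.U214.T4.fc_cl]
    unfold F Pool.Agent.W262.RK.Res
    push_cast
    congr 1
    refine prod_congr rfl fun l _ => ?_
    congr 1
    ring
  unfold Pool.Agent.W307.RT.kapM tang
  rw [Int.cast_mul, hF]
  unfold Pool.Agent.W307.RT.sgM Pool.Agent.W307.RT.cpM Pool.Agent.U214.T4.cl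
  generalize c i = k
  fin_cases k
  · simp
  · simp
  · simp [Fin.ext_iff]

/-- **Theorem.** Let `F 0`, `F 1`, `F 2` be binary forms of the same even degree `2 d` which are products
of `N` pairwise non-proportional linear forms over `ℤ` with multiplicities `μ i ≥ 1`, such that
`F 0 - F 1 = F 2`, and suppose that `tang i` is the square of a rational number whenever `μ i` is even.
Then for the curves `E_t : y² = x (x - F 0 (t, 1)) (x - F 1 (t, 1))`, `t ∈ ℚ` with `F k (t, 1) ≠ 0` for all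
`k`, the group `Ш[2]` is finite, and for every `r ≥ 1` there is `C` such that for all `H ≥ 1` the sum of
the `r`-th powers of `2 ^ rank * #Ш[2]` over these `t` of height at most `H` is at most
`C (1 + log H) ^ e` times their number, and the number of those with rank at least `R` is at most
`C (1 + log H) ^ e / 2 ^ (r R)` times their number for every `R`, where
`e = (2 ^ r - 1) ((2 ^ r + 1) m - N) / 2 ^ r`, `m` the greatest number of the linear forms of one
`F k`. -/
theorem result (N d : ℕ) (c : Fin N → Fin 3) (a : Fin 3 → ℤ) (μ : Fin N → ℕ) (α β : Fin N → ℤ)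
    (ha : ∀ k, a k ≠ 0) (hμ : ∀ i, 1 ≤ μ i)
    (hd : ∀ k, ∑ i ∈ univ.filter (fun i => c i = k), μ i = 2 * d)
    (hα : ∀ i j, i ≠ j → α i * β j ≠ α j * β i)
    (hF : ∀ u v : ℚ, F c a μ α β 0 u v - F c a μ α β 1 u v = F c a μ α β 2 u v)
    (hs : ∀ i, Even (μ i) → IsSquare (tang c a μ α β i)) :
    (∀ t : ℚ, (∀ k, F c a μ α β k t 1 ≠ 0) →
      Finite (ShaTor (E (F c a μ α β 0 t 1) (F c a μ α β 1 t 1)) 2)) ∧
    ∀ r : ℕ, 1 ≤ r → ∃ C : ℝ, ∀ H : ℕ, 1 ≤ H →
      ∑ t ∈ (Rats H).filter (fun t => ∀ k, F c a μ α β k t 1 ≠ 0),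
        M (E (F c a μ α β 0 t 1) (F c a μ α β 1 t 1)) ^ r ≤
      C * (1 + Real.log H) ^ e N (mx c) r *
        ((Rats H).filter (fun t => ∀ k, F c a μ α β k t 1 ≠ 0)).card ∧
      ∀ R : ℕ, (((Rats H).filter (fun t => (∀ k, F c a μ α β k t 1 ≠ 0) ∧
        R ≤ rk (E (F c a μ α β 0 t 1) (F c a μ α β 1 t 1)))).card : ℝ) ≤
      C * (1 + Real.log H) ^ e N (mx c) r / 2 ^ (r * R) *
        ((Rats H).filter (fun t => ∀ k, F c a μ α β k t 1 ≠ 0)).card := by
  classical
  have h0 : ∀ i, α i ≠ 0 ∨ β i ≠ 0 := by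
    intro i
    by_contra h
    push Not at h
    have h3 : ∀ k : Fin 3, ∃ l : Fin 3, l ≠ k := by decide
    obtain ⟨l, hl⟩ := h3 (c i)
    have h4 : 1 ≤ ∑ i ∈ univ.filter (fun j => c j = c i), μ i :=
      (hμ i).trans (single_le_sum (f := fun i => μ i) (fun _ _ => Nat.zero_le _)
        (mem_filter.2 ⟨mem_univ i, rfl⟩))
    rw [hd (c i), ← hd l] at h4
    obtain ⟨j, hj⟩ : (univ.filter (fun j => c j = l)).Nonempty := by
      by_contra h5
      rw [not_nonempty_iff_eq_empty] at h5
      rw [h5] at h4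
      simp at h4
    rw [mem_filter] at hj
    apply hα i j (fun hij => hl (by rw [← hj.2, hij]))
    rw [h.1, h.2]
    ring
  have hs' : ∀ i, Odd (μ i) ∨
      IsSquare (Pool.Agent.W307.RT.kapM (Pool.Agent.U214.T4.cl c) a μ α β i) := by
    intro i
    rcases Nat.even_or_odd (μ i) with h | h
    · right
      have h1 := hs i h
      rw [← kap_eq] at h1
      exact Rat.isSquare_intCast_iff.1 h1
    · exact Or.inl h
  have hfin : ∀ t : ℚ, (∀ k, F c a μ α β k t 1 ≠ 0) →
      Finite (ShaTor (E (F c a μ α β 0 t 1) (F c a μ α β 1 t 1)) 2) := fun t ht =>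
    Pool.Agent.U409.SH.fin_tor (Pool.Agent.U214.T4.at_t hd hF t ht).2.1
  refine ⟨hfin, fun r hr => ?_⟩
  obtain ⟨C, hC⟩ := Pool.Agent.U214.T4.main hr ha hμ hd hα h0 hs' hF (ex c hr)
  have hM : ∀ t : ℚ, M (E (F c a μ α β 0 t 1) (F c a μ α β 1 t 1)) =
      (Pool.Agent.U409.SH.Qn (Pool.Agent.U214.T4.EQ (Pool.Agent.U214.T4.F c a μ α β 0 t 1)
        (Pool.Agent.U214.T4.F c a μ α β 1 t 1)) : ℝ) := by
    intro t
    rw [← Pool.Agent.U409.SH.Mn_eq]
    unfold Pool.Agent.U409.SH.Mn M
    push_cast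
    rfl
  refine ⟨C, fun H hH => ?_⟩
  have hmom : ∑ t ∈ (Rats H).filter (fun t => ∀ k, F c a μ α β k t 1 ≠ 0),
        M (E (F c a μ α β 0 t 1) (F c a μ α β 1 t 1)) ^ r ≤
      C * (1 + Real.log H) ^ e N (mx c) r *
        ((Rats H).filter (fun t => ∀ k, F c a μ α β k t 1 ≠ 0)).card := by
    rw [sum_congr rfl fun t _ => by rw [hM t]]
    exact hC H hH
  refine ⟨hmom, fun R => ?_⟩
  have hp : (0 : ℝ) < 2 ^ (r * R) := by positivity
  rw [← filter_filter]
  have h3 : ((((Rats H).filter (fun t => ∀ k, F c a μ α β k t 1 ≠ 0)).filter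
      (fun t => R ≤ rk (E (F c a μ α β 0 t 1) (F c a μ α β 1 t 1)))).card : ℝ) * 2 ^ (r * R) ≤
      ∑ t ∈ (Rats H).filter (fun t => ∀ k, F c a μ α β k t 1 ≠ 0),
        M (E (F c a μ α β 0 t 1) (F c a μ α β 1 t 1)) ^ r := by
    rw [← nsmul_eq_mul, ← sum_const]
    refine le_trans (sum_le_sum (fun t ht => ?_)) (sum_le_sum_of_subset_of_nonneg
      (filter_subset _ _) (fun t _ _ => by unfold M; positivity))
    rw [mem_filter, mem_filter] at ht
    have h4 : (1 : ℝ) ≤
        (Nat.card (ShaTor (E (F c a μ α β 0 t 1) (F c a μ α β 1 t 1)) 2) : ℝ) := by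
      have h6 := hfin t ht.1.2
      have h7 : Nonempty (ShaTor (E (F c a μ α β 0 t 1) (F c a μ α β 1 t 1)) 2) :=
        ⟨⟨0, smul_zero _⟩⟩
      have h5 : 0 < Nat.card (ShaTor (E (F c a μ α β 0 t 1) (F c a μ α β 1 t 1)) 2) :=
        Nat.card_pos
      exact_mod_cast h5
    have h5 : (2 : ℝ) ^ R ≤ 2 ^ rk (E (F c a μ α β 0 t 1) (F c a μ α β 1 t 1)) :=
      pow_le_pow_right₀ (by norm_num) ht.2
    calc (2 : ℝ) ^ (r * R) = (2 ^ R) ^ r := by rw [← pow_mul, mul_comm]
      _ ≤ M (E (F c a μ α β 0 t 1) (F c a μ α β 1 t 1)) ^ r := by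
        apply pow_le_pow_left₀ (by positivity)
        unfold M
        calc (2 : ℝ) ^ R = 2 ^ R * 1 := (mul_one _).symm
          _ ≤ _ := mul_le_mul h5 h4 zero_le_one (by positivity)
  rw [div_mul_eq_mul_div, le_div_iff₀ hp]
  exact h3.trans hmom

end Pool.Agent.Results.MP_9e6228_nt.RationalFibresMoments
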