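import Mathlib
import Pool.Agent.TH841.SH.ShaDef
import Pool.Agent.U409.SH.Tor
import Pool.Agent.U214.PT.ShaQ
import Pool.Agent.U214.SF.G

/-!
# All moments of `2 ^ rank * #Ш[2]` over semistable families with arbitrary bad fibres

Let `F_k = a_k ∏ P_j ^ μ_j`, the product over the `j` with `c j = k`, `k = 0, 1, 2`, be polynomials with
integer coefficients of the same degree, the `P_j` irreducible over `ℚ` of any degrees and pairwise
non-proportional, the multiplicities `μ_j ≥ 1` arbitrary, such that `F_0 - F_1 = F_2`. As binary forms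
they define the family `E_(m,n) : y² = x (x - F_0(m,n)) (x - F_1(m,n))`, a semistable elliptic surface
whose singular fibres, of type `I_{2 μ_j}`, lie over arbitrary closed points of the line. The singular
fibres with `μ_j` even are assumed to be split (over their residue fields).

(1) For all `r` and `K` the `r`-th moment of `2 ^ rank * #Ш[2]` over the coprime pairs `(m, n)` of a box
`(u, u + X] × (v, v + Y]` is at most `C (1 + log X) ^ kap`, uniformly in all boxes with `|u| ≤ X ^ K` and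
`v + Y ≤ min(X, Y) ^ K`, where `kap` depends only on the numbers of the `j` with `c j = 0, 1, 2`.

(2) For the curves `y² = x (x + (2 s t) ^ 4) (x + (s² - t²) ^ 4)`, `s > t ≥ 1` coprime (by Kubert's
parametrization these are the elliptic curves over `ℚ` with a subgroup `Z/2 x Z/8`, up to isomorphism),
all moments, with `kap` for the numbers `2, 2, 3`. Three of the seven singular fibres lie over
irrational points.

Proof. The machinery of `Pool.Agent.U214.UN` (squarefree case) for a tuple of irreducible polynomials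
with classes, with the local conditions of `Pool.Agent.U409.SH.locm'` for the multiplicities.
-/

set_option autoImplicit false

namespace Pool.Agent.Results.MP_9e6228_nt.SemistableFamilies

open Finset Polynomial
open Pool.Agent.TH841.SH.D (ShaTor rk)

/-- the curve `y² = x (x - a) (x - b)` over `ℚ` -/
def E (a b : ℤ) : WeierstrassCurve ℚ := ⟨0, -((a : ℚ) + b), 0, (a : ℚ) * b, 0⟩

/-- `2 ^ rank * #Ш[2]` for the elliptic curve `W` over `ℚ` (`ShaTor W 2` are the elements of the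
Tate-Shafarevich group killed by `2`, `rk W` is the rank of the group of the rational points) -/
noncomputable def M (W : WeierstrassCurve ℚ) : ℕ := 2 ^ rk W * Nat.card (ShaTor W 2)

/-- the value at `(m, n)` of the binary form of degree `deg f` with `f (t) = hom f t 1` -/
def hom (f : ℤ[X]) (m n : ℤ) : ℤ :=
  ∑ i ∈ range (f.natDegree + 1), f.coeff i * m ^ i * n ^ (f.natDegree - i)

/-- `f` as a polynomial over `ℚ` -/
noncomputable def q (f : ℤ[X]) : ℚ[X] := f.map (Int.castRingHom ℚ)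

/-- the polynomial `F k`, `a k` times the product of the `P j ^ μ j` over the `j` with `c j = k` -/
noncomputable def F {N : ℕ} (c : Fin N → Fin 3) (a : Fin 3 → ℤ) (μ : Fin N → ℕ)
    (P : Fin N → ℤ[X]) (k : Fin 3) : ℤ[X] :=
  C (a k) * ∏ j ∈ univ.filter (fun j => c j = k), P j ^ μ j

/-- the polynomial `-F 1`, `-F 0` or `F 0`, for `c j = 0`, `1` or `2` -/
noncomputable def tang {N : ℕ} (c : Fin N → Fin 3) (a : Fin 3 → ℤ) (μ : Fin N → ℕ)
    (P : Fin N → ℤ[X]) (j : Fin N) : ℤ[X] :=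
  if c j = 0 then -F c a μ P 1 else if c j = 1 then -F c a μ P 0 else F c a μ P 0

/-- the hypotheses on the family -/
structure Adm {N : ℕ} (c : Fin N → Fin 3) (a : Fin 3 → ℤ) (μ : Fin N → ℕ) (P : Fin N → ℤ[X]) :
    Prop where
  pos : 1 ≤ N
  mul : ∀ j, 1 ≤ μ j
  con : ∀ k, a k ≠ 0
  irr : ∀ j, Irreducible (q (P j))
  ass : ∀ i j, i ≠ j → ¬ Associated (q (P i)) (q (P j))
  dif : F c a μ P 0 - F c a μ P 1 = F c a μ P 2
  deg1 : (F c a μ P 1).natDegree = (F c a μ P 0).natDegree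
  deg2 : (F c a μ P 2).natDegree = (F c a μ P 0).natDegree
  split : ∀ j, Odd (μ j) ∨ (Even (F c a μ P 0).natDegree ∧
    ∃ S : ℚ[X], q (P j) ∣ q (tang c a μ P j) - S ^ 2)

/-- the number of the `j` with `c j = k` -/
def num {N : ℕ} (c : Fin N → Fin 3) (k : Fin 3) : ℕ := (univ.filter (fun j => c j = k)).card

/-- the exponent: the largest of `0` and the three numbers
`(2 ^ r - 1) * (n0 - (n1 + n2) / 2 ^ r)`, with `n0`, `n1`, `n2` permuted cyclically -/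
noncomputable def kap (r n0 n1 n2 : ℕ) : ℝ :=
  max 0 (max (((2 : ℝ) ^ r - 1) * (n0 - ((n1 : ℝ) + n2) / 2 ^ r))
    (max (((2 : ℝ) ^ r - 1) * (n1 - ((n0 : ℝ) + n2) / 2 ^ r))
      (((2 : ℝ) ^ r - 1) * (n2 - ((n0 : ℝ) + n1) / 2 ^ r))))

/-- the coprime pairs `(m, n)` with `u < m ≤ u + X`, `v < n ≤ v + Y` and a nonsingular curve -/
noncomputable def Box (A B : ℤ[X]) (u : ℤ) (v X Y : ℕ) : Finset (ℤ × ℕ) :=
  ((Ioc u (u + X)) ×ˢ (Ioc v (v + Y))).filter (fun w : ℤ × ℕ =>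
    IsCoprime w.1 (w.2 : ℤ) ∧ hom A w.1 w.2 * hom B w.1 w.2 * (hom A w.1 w.2 - hom B w.1 w.2) ≠ 0)

/-- the coprime pairs `(s, t)` with `1 ≤ t < s ≤ H` -/
noncomputable def Pairs (H : ℕ) : Finset (ℤ × ℤ) :=
  ((Icc 1 (H : ℤ)) ×ˢ (Icc 1 (H : ℤ))).filter (fun w : ℤ × ℤ => w.2 < w.1 ∧ IsCoprime w.1 w.2)

/-- the curve `y² = x (x + (2 s t) ^ 4) (x + (s ^ 2 - t ^ 2) ^ 4)` -/
def E8 (w : ℤ × ℤ) : WeierstrassCurve ℚ := E (-(2 * w.1 * w.2) ^ 4) (-(w.1 ^ 2 - w.2 ^ 2) ^ 4)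

lemma tail {ι : Type} [DecidableEq ι] (S : Finset ι) (f : ι → ℕ) {r : ℕ} {B : ℝ}
    (h : ∑ w ∈ S, (f w : ℝ) ^ r ≤ B) (R : ℕ) :
    ((S.filter (fun w => 2 ^ R ≤ f w)).card : ℝ) ≤ B / 2 ^ (r * R) := by
  rw [le_div_iff₀ (by positivity)]
  refine le_trans ?_ h
  rw [← nsmul_eq_mul, ← sum_const]
  refine (sum_le_sum fun t ht => ?_).trans (sum_le_sum_of_subset_of_nonneg (filter_subset _ _)
    fun t _ _ => pow_nonneg (Nat.cast_nonneg _) _)
  have h2 := (mem_filter.1 ht).2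
  have h3 : (2 : ℝ) ^ R ≤ (f t : ℝ) := by
    exact_mod_cast h2
  rw [mul_comm r R, pow_mul]
  exact pow_le_pow_left₀ (by positivity) h3 r

lemma hom_eq (f : ℤ[X]) (m : ℤ) (n : ℕ) : hom f m n = Pool.Agent.U214.UN.ev f n m :=
  Pool.Agent.U214.UN.hom_ev f m n

lemma M_eq (a b : ℤ) : (Pool.Agent.U409.SH.qq a b : ℝ) = (M (E a b) : ℝ) := by
  rw [Pool.Agent.U409.SH.qq_eq]
  exact congrArg (fun x : ℕ => (x : ℝ)) (Pool.Agent.U409.SH.Mn_eq _).symm

/-- the moments over the boxes -/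
theorem boxes {N : ℕ} {c : Fin N → Fin 3} {a : Fin 3 → ℤ} {μ : Fin N → ℕ} {P : Fin N → ℤ[X]}
    (h : Adm c a μ P) (r K : ℕ) : ∃ C : ℝ, ∀ X Y : ℕ, 1 ≤ X → 1 ≤ Y → ∀ v : ℕ,
      v + Y ≤ min X Y ^ K → ∀ u : ℤ, |u| ≤ (X : ℤ) ^ K →
      ∑ w ∈ Box (F c a μ P 0) (F c a μ P 1) u v X Y,
        (M (E (hom (F c a μ P 0) w.1 w.2) (hom (F c a μ P 1) w.1 w.2)) : ℝ) ^ r ≤
        C * (X * Y * (1 + Real.log X) ^ kap r (num c 0) (num c 1) (num c 2)) := by
  classical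
  haveI : Nonempty (Fin N) := ⟨⟨0, h.pos⟩⟩
  obtain ⟨C, hC⟩ := Pool.Agent.U214.SF.famE (c := c) (a := a) (μ := μ) (P := P) h.mul h.con h.irr
    h.ass h.dif h.deg1 h.deg2 h.split (r := r) (e := kap r (num c 0) (num c 1) (num c 2))
    (le_max_left _ _)
    ((le_max_left _ _).trans (le_max_right _ _))
    ((le_max_left _ _).trans ((le_max_right _ _).trans (le_max_right _ _)))
    ((le_max_right _ _).trans ((le_max_right _ _).trans (le_max_right _ _))) K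
  refine ⟨C, fun X Y hX hY v hv u hu => le_trans ?_ (hC X Y v u hX hY
    (hv.trans (Nat.pow_le_pow_left (min_le_left X Y) K))
    (hv.trans (Nat.pow_le_pow_left (min_le_right X Y) K)) (by zify; exact hu))⟩
  have hsub : ∀ (n : ℕ) (m : ℤ), Pool.Agent.U214.UN.ev (F c a μ P 0) n m -
      Pool.Agent.U214.UN.ev (F c a μ P 1) n m = Pool.Agent.U214.UN.ev (F c a μ P 2) n m := by
    intro n m
    rw [← (Pool.Agent.U214.UN.adT_deg h.deg1 (by rw [h.dif]; exact h.deg2) n).sub m, h.dif]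
  refine le_trans (sum_le_sum_of_subset_of_nonneg (t := ((Ioc u (u + X)) ×ˢ
    (Ioc v (v + Y))).filter (fun w : ℤ × ℕ => IsCoprime w.1 (w.2 : ℤ) ∧
      Pool.Agent.U214.UN.ev (Pool.Agent.U214.SF.FT P) w.2 w.1 ≠ 0)) ?_
    (fun _ _ _ => pow_nonneg (Nat.cast_nonneg _) _)) (le_of_eq ?_)
  · intro w hw
    unfold Box at hw
    rw [mem_filter] at hw ⊢
    refine ⟨hw.1, hw.2.1, ?_⟩
    have h1 := hw.2.2
    rw [hom_eq, hom_eq, hsub] at h1
    unfold Pool.Agent.U214.SF.FT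
    rw [Pool.Agent.U214.SF.ev_prodJ]
    refine prod_ne_zero_iff.2 fun j _ h2 => ?_
    have h3 : Pool.Agent.U214.UN.ev (F c a μ P (c j)) w.2 w.1 = 0 := by
      have e := Pool.Agent.U214.SF.ev_FF (c := c) (a := a) (μ := μ) (P := P) (c j) w.2 w.1
      have h5 : ∏ l ∈ univ.filter (fun l => c l = c j),
          Pool.Agent.U214.UN.ev (P l) w.2 w.1 ^ μ l = 0 :=
        prod_eq_zero (i := j) (mem_filter.2 ⟨mem_univ j, rfl⟩)
          (by rw [h2]; exact zero_pow (by have := h.mul j; omega))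
      refine e.trans ?_
      rw [h5, mul_zero]
    rcases Pool.Agent.U214.SF.f3 (c j) with h4 | h4 | h4
    · rw [h4] at h3
      exact left_ne_zero_of_mul (left_ne_zero_of_mul h1) h3
    · rw [h4] at h3
      exact right_ne_zero_of_mul (left_ne_zero_of_mul h1) h3
    · rw [h4] at h3
      exact right_ne_zero_of_mul h1 h3
  · refine sum_congr rfl fun w _ => ?_
    rw [hom_eq, hom_eq, ← M_eq]
    rfl

lemma adm8 : Adm Pool.Agent.U214.SF.c8 Pool.Agent.U214.SF.a8 Pool.Agent.U214.SF.m8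
    Pool.Agent.U214.SF.P8 where
  pos := by norm_num
  mul := by decide
  con := by decide
  irr := Pool.Agent.U214.SF.irr8
  ass := Pool.Agent.U214.SF.na8
  dif := Pool.Agent.U214.SF.hid8
  deg1 := Pool.Agent.U214.SF.nd81.trans Pool.Agent.U214.SF.nd80.symm
  deg2 := Pool.Agent.U214.SF.nd82.trans Pool.Agent.U214.SF.nd80.symm
  split := Pool.Agent.U214.SF.spl8

/-- the curves with a subgroup `Z/2 x Z/8` -/
theorem torsion8 (r : ℕ) : ∃ C : ℝ, ∀ H : ℕ, 1 ≤ H →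
    ∑ w ∈ Pairs H, (M (E8 w) : ℝ) ^ r ≤ C * ((H : ℝ) ^ 2 * (1 + Real.log H) ^ kap r 2 2 3) := by
  classical
  obtain ⟨C, hC⟩ := boxes adm8 r 2
  have n0 : num Pool.Agent.U214.SF.c8 0 = 2 := by decide
  have n1 : num Pool.Agent.U214.SF.c8 1 = 2 := by decide
  have n2 : num Pool.Agent.U214.SF.c8 2 = 3 := by decide
  rw [n0, n1, n2] at hC
  obtain ⟨κ, hκ⟩ : ∃ κ, κ = kap r 2 2 3 := ⟨_, rfl⟩
  have hκ0 : 0 ≤ κ := by rw [hκ]; exact le_max_left _ _
  rw [← hκ] at hC ⊢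
  refine ⟨|C| * (4 * 2 ^ κ), fun H hH => ?_⟩
  have hHr : (1 : ℝ) ≤ H := by exact_mod_cast hH
  have hlH : 0 ≤ Real.log H := Real.log_nonneg hHr
  have hb := hC (H + 1) (2 * H) (by omega) (by omega) 0 (by
    rw [min_eq_left (by omega), zero_add]
    nlinarith) (-((H : ℤ) + 1)) (by
    rw [abs_neg, abs_of_nonneg (by omega)]
    push_cast
    nlinarith)
  obtain ⟨φ, hφ⟩ : ∃ φ : ℤ × ℤ → ℤ × ℕ, φ = fun w => (-w.1, (2 * w.1 - w.2).toNat) := ⟨_, rfl⟩
  have hmem : ∀ w ∈ Pairs H, 1 ≤ w.1 ∧ w.1 ≤ H ∧ 1 ≤ w.2 ∧ w.2 < w.1 ∧ IsCoprime w.1 w.2 := by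
    intro w hw
    unfold Pairs at hw
    rw [mem_filter, mem_product, mem_Icc, mem_Icc] at hw
    exact ⟨hw.1.1.1, hw.1.1.2, hw.1.2.1, hw.2.1, hw.2.2⟩
  have hφ2 : ∀ w ∈ Pairs H, (((φ w).2 : ℕ) : ℤ) = 2 * w.1 - w.2 := by
    intro w hw
    obtain ⟨h1, _, _, h4, _⟩ := hmem w hw
    rw [hφ]
    simp only
    rw [Int.toNat_of_nonneg (by omega)]
  have hv0 : ∀ w ∈ Pairs H, hom (F Pool.Agent.U214.SF.c8 Pool.Agent.U214.SF.a8
      Pool.Agent.U214.SF.m8 Pool.Agent.U214.SF.P8 0) (φ w).1 (φ w).2 = -(2 * w.1 * w.2) ^ 4 := by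
    intro w hw
    rw [hom_eq]
    refine (Pool.Agent.U214.SF.ev80 _ _).trans ?_
    rw [hφ2 w hw, hφ]
    ring
  have hv1 : ∀ w ∈ Pairs H, hom (F Pool.Agent.U214.SF.c8 Pool.Agent.U214.SF.a8
      Pool.Agent.U214.SF.m8 Pool.Agent.U214.SF.P8 1) (φ w).1 (φ w).2 =
      -(w.1 ^ 2 - w.2 ^ 2) ^ 4 := by
    intro w hw
    rw [hom_eq]
    refine (Pool.Agent.U214.SF.ev81 _ _).trans ?_
    rw [hφ2 w hw, hφ]
    ring
  have hinj : Set.InjOn φ (Pairs H) := by
    intro w hw w' hw' h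
    have h1 := hφ2 w hw
    have h2 := hφ2 w' hw'
    have h3 : (φ w).1 = (φ w').1 := by rw [h]
    rw [h] at h1
    rw [hφ] at h3
    simp only at h3
    apply Prod.ext <;> omega
  have hsub : (Pairs H).image φ ⊆ Box (F Pool.Agent.U214.SF.c8 Pool.Agent.U214.SF.a8
      Pool.Agent.U214.SF.m8 Pool.Agent.U214.SF.P8 0) (F Pool.Agent.U214.SF.c8
      Pool.Agent.U214.SF.a8 Pool.Agent.U214.SF.m8 Pool.Agent.U214.SF.P8 1)
      (-((H : ℤ) + 1)) 0 (H + 1) (2 * H) := by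
    intro x hx
    obtain ⟨w, hw, rfl⟩ := mem_image.1 hx
    obtain ⟨h1, h2, h3, h4, h5⟩ := hmem w hw
    have h6 := hφ2 w hw
    have h7 : (φ w).1 = -w.1 := by rw [hφ]
    unfold Box
    rw [mem_filter, mem_product, mem_Ioc, mem_Ioc, hv0 w hw, hv1 w hw, h6, h7]
    refine ⟨⟨⟨by omega, by push_cast; omega⟩, by omega, by omega⟩, ?_, ?_⟩
    · rw [IsCoprime.neg_left_iff, show 2 * w.1 - w.2 = -w.2 + w.1 * 2 by ring]
      exact IsCoprime.add_mul_left_right (h5.neg_right) 2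
    · have hx0 : 0 < 2 * w.1 * w.2 := by positivity
      have hy0 : 0 < w.1 ^ 2 - w.2 ^ 2 := by nlinarith
      have hne : 2 * w.1 * w.2 ≠ w.1 ^ 2 - w.2 ^ 2 := by
        intro h
        apply Pool.Agent.U214.SF.not_sq2
        refine ⟨((w.1 - w.2 : ℤ) : ℚ) / w.2, ?_⟩
        have hw2 : (w.2 : ℚ) ≠ 0 := by
          have : w.2 ≠ 0 := by omega
          exact_mod_cast this
        have h8 : (2 : ℚ) * w.1 * w.2 = (w.1 : ℚ) ^ 2 - (w.2 : ℚ) ^ 2 := by exact_mod_cast h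
        field_simp
        push_cast
        linear_combination h8
      refine mul_ne_zero (mul_ne_zero (neg_ne_zero.2 (pow_ne_zero _ hx0.ne'))
        (neg_ne_zero.2 (pow_ne_zero _ hy0.ne'))) fun h => hne ?_
      have h9 : (2 * w.1 * w.2) ^ 4 = (w.1 ^ 2 - w.2 ^ 2) ^ 4 := by linarith
      exact (pow_left_inj₀ hx0.le hy0.le (by norm_num)).1 h9
  calc ∑ w ∈ Pairs H, (M (E8 w) : ℝ) ^ r
      = ∑ x ∈ (Pairs H).image φ, (M (E (hom (F Pool.Agent.U214.SF.c8 Pool.Agent.U214.SF.a8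
        Pool.Agent.U214.SF.m8 Pool.Agent.U214.SF.P8 0) x.1 x.2) (hom (F Pool.Agent.U214.SF.c8
        Pool.Agent.U214.SF.a8 Pool.Agent.U214.SF.m8 Pool.Agent.U214.SF.P8 1) x.1 x.2)) :
          ℝ) ^ r := by
        rw [sum_image hinj]
        refine sum_congr rfl fun w hw => ?_
        rw [hv0 w hw, hv1 w hw]
        rfl
    _ ≤ _ := sum_le_sum_of_subset_of_nonneg hsub fun _ _ _ => pow_nonneg (Nat.cast_nonneg _) _
    _ ≤ _ := hb
    _ ≤ |C| * ((((H + 1 : ℕ) : ℝ)) * ((2 * H : ℕ) : ℝ) *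
        (1 + Real.log ((H + 1 : ℕ) : ℝ)) ^ κ) := by
        apply mul_le_mul_of_nonneg_right (le_abs_self C)
        have := Real.log_natCast_nonneg (H + 1)
        exact mul_nonneg (by positivity) (Real.rpow_nonneg (by linarith) _)
    _ ≤ |C| * ((2 * H) * (2 * H) * (2 ^ κ * (1 + Real.log H) ^ κ)) := by
        apply mul_le_mul_of_nonneg_left _ (abs_nonneg C)
        have h1 : ((H + 1 : ℕ) : ℝ) ≤ 2 * H := by push_cast; linarith
        have h2 : ((2 * H : ℕ) : ℝ) = 2 * H := by push_cast; ring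
        have h3 : 1 + Real.log ((H + 1 : ℕ) : ℝ) ≤ 2 * (1 + Real.log H) := by
          have h4 : Real.log ((H + 1 : ℕ) : ℝ) ≤ Real.log (2 * H) :=
            Real.log_le_log (by positivity) h1
          rw [Real.log_mul (by norm_num) (by linarith)] at h4
          have h5 := Real.log_two_lt_d9
          linarith
        have h6 := Real.log_natCast_nonneg (H + 1)
        rw [h2, ← Real.mul_rpow (by norm_num) (by linarith)]
        refine mul_le_mul (mul_le_mul_of_nonneg_right h1 (by linarith))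
          (Real.rpow_le_rpow (by linarith) h3 hκ0) (Real.rpow_nonneg (by linarith) _) (by positivity)
    _ = _ := by ring

/-- All the moments of `2 ^ rank * #Ш[2]`: (1) over the boxes of coprime pairs, for the semistable
families with arbitrary bad fibres; (2) for the curves `E8 (s, t)`. -/
theorem result :
    (∀ (N : ℕ) (c : Fin N → Fin 3) (a : Fin 3 → ℤ) (μ : Fin N → ℕ) (P : Fin N → ℤ[X]),
      Adm c a μ P → ∀ r K : ℕ, ∃ C : ℝ, ∀ X Y : ℕ, 1 ≤ X → 1 ≤ Y → ∀ v : ℕ,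
      v + Y ≤ min X Y ^ K → ∀ u : ℤ, |u| ≤ (X : ℤ) ^ K →
      ∑ w ∈ Box (F c a μ P 0) (F c a μ P 1) u v X Y,
        (M (E (hom (F c a μ P 0) w.1 w.2) (hom (F c a μ P 1) w.1 w.2)) : ℝ) ^ r ≤
        C * (X * Y * (1 + Real.log X) ^ kap r (num c 0) (num c 1) (num c 2)) ∧
      ∀ R : ℕ, (((Box (F c a μ P 0) (F c a μ P 1) u v X Y).filter (fun w =>
        2 ^ R ≤ M (E (hom (F c a μ P 0) w.1 w.2) (hom (F c a μ P 1) w.1 w.2)))).card : ℝ) ≤
        C * (X * Y * (1 + Real.log X) ^ kap r (num c 0) (num c 1) (num c 2)) / 2 ^ (r * R)) ∧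
    (∀ r : ℕ, ∃ C : ℝ, ∀ H : ℕ, 1 ≤ H →
      ∑ w ∈ Pairs H, (M (E8 w) : ℝ) ^ r ≤ C * ((H : ℝ) ^ 2 * (1 + Real.log H) ^ kap r 2 2 3) ∧
      ∀ R : ℕ, (((Pairs H).filter (fun w => 2 ^ R ≤ M (E8 w))).card : ℝ) ≤
        C * ((H : ℝ) ^ 2 * (1 + Real.log H) ^ kap r 2 2 3) / 2 ^ (r * R)) := by
  classical
  refine ⟨fun N c a μ P h r K => ?_, fun r => ?_⟩
  · obtain ⟨C, hC⟩ := boxes h r K
    refine ⟨C, fun X Y hX hY v hv u hu => ⟨hC X Y hX hY v hv u hu, fun R => ?_⟩⟩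
    exact tail _ (fun w : ℤ × ℕ => M (E (hom (F c a μ P 0) w.1 w.2)
      (hom (F c a μ P 1) w.1 w.2))) (hC X Y hX hY v hv u hu) R
  · obtain ⟨C, hC⟩ := torsion8 r
    exact ⟨C, fun H hH => ⟨hC H hH, fun R => tail _ (fun w => M (E8 w)) (hC H hH) R⟩⟩

end Pool.Agent.Results.MP_9e6228_nt.SemistableFamilies
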