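import Mathlib
import Pool.Agent.U214.T6.Ht
import Pool.Agent.U409.SH.Tor

/-!
# All moments of `2 ^ rank` over the elliptic curves with torsion `Z/2 x Z/4` or `Z/2 x Z/6`

All elliptic curves over `ℚ` whose group of rational points has a subgroup isomorphic to `Z/2 x Z/m`,
`m = 4` or `m = 6`, ordered by height (by Mazur's theorem, for `m = 6` these are the curves with torsion
group `Z/2 x Z/6`, for `m = 4` those with torsion group `Z/2 x Z/4` or `Z/2 x Z/8`). For every `r ≥ 1` the
mean of the `r`-th power of `2 ^ rank * #Ш[2]` over the curves of height at most `H` is at most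
`C (1 + log H) ^ e`, with the explicit exponents `e = 2 (2 ^ r - 1) (2 ^ r - 2) / 2 ^ r` for `m = 6` and
`e = 2 (2 ^ r - 1) ^ 2 / 2 ^ r` for `m = 4`. Consequently the proportion of the curves of height at most
`H` whose rank is at least `R` is at most `C (1 + log H) ^ e / 2 ^ (r R)`, for every `r`; so ranks greater
than `L log log H` have a proportion less than any given power of `1 / log H`, if `L` is large.

Proof. The forms which parametrise these curves are products of linear forms with multiplicities; each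
multiplicity is odd or the reduction is split at the primes of the form. The 2-Selmer group is bounded by
the count of the pairs of divisors with local conditions (`U409.SH`, project RT of the library), the powers
of this count are expanded into sums of products of quadratic symbols (`U214.RM`), which are estimated by
reciprocity and the large sieve; their size is determined by the largest unlinked sets of indices, here for
classes of unequal sizes (`U214.GT.Comb`); and the averages over the coprime pairs are taken by the method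
of Nair and Tenenbaum.
-/

set_option autoImplicit false

namespace Pool.Agent.Results.MP_9e6228_nt.TorsionMoments

open Finset Filter
open Pool.Agent.TH841.SH.D (ShaTor rk)

/-- the curve `y² = x³ + A x + B` over `ℚ` -/
def E (A B : ℤ) : WeierstrassCurve ℚ := ⟨0, 0, 0, (A : ℚ), (B : ℚ)⟩

open Classical in
/-- The pairs `(A, B)` of integers such that `4 A³ + 27 B² ≠ 0`, there is no prime `p` with
`p⁴ ∣ A` and `p⁶ ∣ B`, the height `max (4 |A|³) (27 B²)` is at most `H`, and `Z/2 x Z/m` embeds in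
the group of the rational points of `y² = x³ + A x + B`. (The bounds `|A|, |B| ≤ H` follow from the
bound of the height. Every elliptic curve over `ℚ` is isomorphic to `E A B` for exactly one pair
with the first two properties.) -/
noncomputable def Fam (m H : ℕ) : Finset (ℤ × ℤ) :=
  ((Icc (-(H : ℤ)) H) ×ˢ (Icc (-(H : ℤ)) H)).filter (fun c : ℤ × ℤ =>
    4 * c.1 ^ 3 + 27 * c.2 ^ 2 ≠ 0 ∧ 4 * |c.1| ^ 3 ≤ H ∧ 27 * c.2 ^ 2 ≤ H ∧
    (∀ p : ℕ, p.Prime → ¬ ((p : ℤ) ^ 4 ∣ c.1 ∧ (p : ℤ) ^ 6 ∣ c.2)) ∧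
    ∃ f : ZMod 2 × ZMod m →+ (E c.1 c.2).toAffine.Point, Function.Injective f)

/-- the exponent of the logarithm -/
noncomputable def e (m r : ℕ) : ℝ :=
  if m = 4 then 2 * ((2 : ℝ) ^ r - 1) ^ 2 / 2 ^ r
  else 2 * ((2 : ℝ) ^ r - 1) * ((2 : ℝ) ^ r - 2) / 2 ^ r

lemma Fam_eq {m : ℕ} (hm : m = 4 ∨ m = 6) (H : ℕ) : Fam m H = Pool.Agent.W307.RT.Cv m H := by
  classical
  unfold Fam Pool.Agent.W307.RT.Cv
  apply filter_congr
  intro c _
  have h : Pool.Agent.W307.RT.HasT m (Pool.Agent.W307.RT.Sh c.1 c.2) ↔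
      ∃ f : ZMod 2 × ZMod m →+ (E c.1 c.2).toAffine.Point, Function.Injective f := by
    rcases hm with rfl | rfl
    · exact Pool.Agent.W307.RT.tors_iff
    · exact Pool.Agent.W307.RT.tors_iff
  rw [h]

/-- **Theorem.** Let `m = 4` or `m = 6` and `r ≥ 1`. The number of the elliptic curves over `ℚ` of height
at most `H` with a subgroup `Z/2 x Z/m` tends to infinity with `H`, for all of them `Ш[2]` is finite, the
sum of the `r`-th powers of `2 ^ rank * #Ш[2]` is at most `C (1 + log H) ^ e(m, r)` times their number, and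
the number of those with rank at least `R` is at most `C (1 + log H) ^ e(m, r) / 2 ^ (r R)` times their
number, for all `R`. -/
theorem result (m : ℕ) (hm : m = 4 ∨ m = 6) (r : ℕ) (hr : 1 ≤ r) :
    Tendsto (fun H : ℕ => (Fam m H).card) atTop atTop ∧
    (∀ H : ℕ, ∀ c ∈ Fam m H, Finite (ShaTor (E c.1 c.2) 2)) ∧
    ∃ C : ℝ, ∀ H : ℕ, 1 ≤ H →
      ∑ c ∈ Fam m H, ((2 : ℝ) ^ rk (E c.1 c.2) * (Nat.card (ShaTor (E c.1 c.2) 2) : ℝ)) ^ r ≤
        C * (1 + Real.log H) ^ e m r * (Fam m H).card ∧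
      ∀ R : ℕ, (((Fam m H).filter (fun c : ℤ × ℤ => R ≤ rk (E c.1 c.2))).card : ℝ) ≤
        C * (1 + Real.log H) ^ e m r / 2 ^ (r * R) * (Fam m H).card := by
  simp only [Fam_eq hm]
  have h1 : ∀ H : ℕ, ∀ c ∈ Pool.Agent.W307.RT.Cv m H,
      Pool.Agent.U409.SH.Fin2 (Pool.Agent.W307.RT.Sh c.1 c.2) := by
    rcases hm with rfl | rfl
    · exact fun H c hc => Pool.Agent.U409.SH.fin_of_par Pool.Agent.U409.SH.par4' H hc
    · exact fun H c hc => Pool.Agent.U409.SH.fin_of_par Pool.Agent.U409.SH.par6' H hc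
  refine ⟨?_, fun H c hc => Pool.Agent.U409.SH.fin_tor (h1 H c hc), ?_⟩
  · rcases hm with rfl | rfl
    · exact Pool.Agent.W307.RT.tendsto_of_low Pool.Agent.W29.RT.low4
    · exact Pool.Agent.W307.RT.tendsto_of_low Pool.Agent.W376.RTL.low6
  · obtain ⟨C, hC⟩ := Pool.Agent.U214.T6.momT hm hr
    have hQ : ∀ c : ℤ × ℤ, ((2 : ℝ) ^ rk (E c.1 c.2) * (Nat.card (ShaTor (E c.1 c.2) 2) : ℝ)) =
        (Pool.Agent.U409.SH.Qn (Pool.Agent.W307.RT.Sh c.1 c.2) : ℝ) := by
      intro c
      rw [← Pool.Agent.U409.SH.Mn_eq]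
      unfold Pool.Agent.U409.SH.Mn
      push_cast
      rfl
    have he : Pool.Agent.U214.T6.expo m r = e m r := rfl
    refine ⟨C, fun H hH => ?_⟩
    have hmom : ∑ c ∈ Pool.Agent.W307.RT.Cv m H,
        ((2 : ℝ) ^ rk (E c.1 c.2) * (Nat.card (ShaTor (E c.1 c.2) 2) : ℝ)) ^ r ≤
        C * (1 + Real.log H) ^ e m r * (Pool.Agent.W307.RT.Cv m H).card := by
      have h2 := hC H hH
      rw [he] at h2
      calc _ = ∑ c ∈ Pool.Agent.W307.RT.Cv m H,
            (Pool.Agent.U409.SH.Qn (Pool.Agent.W307.RT.Sh c.1 c.2) : ℝ) ^ r :=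
            sum_congr rfl fun c _ => by rw [hQ c]
        _ ≤ _ := h2
        _ = _ := by ring
    refine ⟨hmom, fun R => ?_⟩
    have hp : (0 : ℝ) < 2 ^ (r * R) := by positivity
    have h3 : (((Pool.Agent.W307.RT.Cv m H).filter
        (fun c : ℤ × ℤ => R ≤ rk (E c.1 c.2))).card : ℝ) * 2 ^ (r * R) ≤
        ∑ c ∈ Pool.Agent.W307.RT.Cv m H,
          ((2 : ℝ) ^ rk (E c.1 c.2) * (Nat.card (ShaTor (E c.1 c.2) 2) : ℝ)) ^ r := by
      rw [← nsmul_eq_mul, ← sum_const]
      refine le_trans (sum_le_sum (fun c hc => ?_)) (sum_le_sum_of_subset_of_nonneg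
        (filter_subset _ _) (fun c _ _ => by positivity))
      rw [mem_filter] at hc
      haveI := Pool.Agent.U409.SH.fin_tor (h1 H c hc.1)
      have h4 : (1 : ℝ) ≤ (Nat.card (ShaTor (E c.1 c.2) 2) : ℝ) := by
        have h5 : 0 < Nat.card (ShaTor (E c.1 c.2) 2) := by
          have h6 : Finite (ShaTor (E c.1 c.2) 2) :=
            Pool.Agent.U409.SH.fin_tor (h1 H c hc.1)
          have h7 : Nonempty (ShaTor (E c.1 c.2) 2) := ⟨⟨0, smul_zero _⟩⟩
          exact Nat.card_pos
        exact_mod_cast h5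
      have h5 : (2 : ℝ) ^ R ≤ 2 ^ rk (E c.1 c.2) := pow_le_pow_right₀ (by norm_num) hc.2
      calc (2 : ℝ) ^ (r * R) = (2 ^ R) ^ r := by rw [← pow_mul, mul_comm]
        _ ≤ ((2 : ℝ) ^ rk (E c.1 c.2) * (Nat.card (ShaTor (E c.1 c.2) 2) : ℝ)) ^ r := by
          apply pow_le_pow_left₀ (by positivity)
          calc (2 : ℝ) ^ R = 2 ^ R * 1 := (mul_one _).symm
            _ ≤ _ := mul_le_mul h5 h4 zero_le_one (by positivity)
    rw [div_mul_eq_mul_div, le_div_iff₀ hp]
    exact h3.trans hmom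

end Pool.Agent.Results.MP_9e6228_nt.TorsionMoments
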